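import Pool.Agent.H29.SX.Targets

set_option autoImplicit false

namespace Pool.Agent.H84.SX

open NumberField Height Finset Polynomial Pool.Agent.H24.RD Pool.Agent.H23.RDD Pool.Agent.H29.RQ
  Pool.Agent.H29.SX

/-- A point as a monoid homomorphism. -/
def ptHom {A R : Type} [AddCommGroup A] [CommRing R] (y : A → R) (h : IsPt y) :
    Multiplicative A →* R where
  toFun a := y a.toAdd
  map_one' := h.zero
  map_mul' a b := h.add a.toAdd b.toAdd

/-- The value at a point as an algebra homomorphism. -/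
noncomputable def evH (K : Type) {A R : Type} [AddCommGroup A] [Field K] [CommRing R]
    [Algebra K R] (y : A → R) (h : IsPt y) : AddMonoidAlgebra K A →ₐ[K] R :=
  AddMonoidAlgebra.lift K R A (ptHom y h)

theorem evH_apply {K A R : Type} [AddCommGroup A] [Field K] [CommRing R]
    [Algebra K R] (y : A → R) (h : IsPt y) (f : AddMonoidAlgebra K A) :
    evH K y h f = ev K y f.coeff := rfl

theorem ev_lin {K A R : Type} [Field K] [CommRing R] [Algebra K R] (y : A → R)
    (f : A →₀ K) : ev K y f = Finsupp.linearCombination K y f := by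
  unfold ev
  rw [Finsupp.linearCombination_apply]
  exact Finsupp.sum_congr fun a _ => (Algebra.smul_def _ _).symm

/-- The twist of a Laurent polynomial. -/
noncomputable def tw {K A : Type} [Field K] (τ : A → K) (f : A →₀ K) : A →₀ K :=
  Finsupp.onFinset f.support (fun a => τ a * f a) (fun a ha => by
    rw [Finsupp.mem_support_iff]
    exact right_ne_zero_of_mul ha)

theorem tw_apply {K A : Type} [Field K] (τ : A → K) (f : A →₀ K) (a : A) :
    tw τ f a = τ a * f a := rfl

theorem ev_tw {K A R : Type} [Field K] [CommRing R] [Algebra K R] (τ : A → K)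
    (y : A → R) (f : A →₀ K) :
    ev K y (tw τ f) = ev K (fun a => algebraMap K R (τ a) * y a) f := by
  unfold ev tw
  rw [Finsupp.onFinset_sum _ (fun a => by rw [map_zero, zero_mul]), Finsupp.sum]
  refine Finset.sum_congr rfl fun a _ => ?_
  rw [map_mul]
  ring

theorem tw_tw {K A : Type} [Field K] (τ τ' : A → K) (f : A →₀ K) :
    tw τ (tw τ' f) = tw (fun a => τ a * τ' a) f := by
  ext a
  rw [tw_apply, tw_apply, tw_apply, mul_assoc]

/-- The twist as an algebra homomorphism. -/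
noncomputable def twH {K A : Type} [AddCommGroup A] [Field K] (τ : A → K) (h : IsPt τ) :
    AddMonoidAlgebra K A →ₐ[K] AddMonoidAlgebra K A :=
  AddMonoidAlgebra.lift K (AddMonoidAlgebra K A) A
    { toFun := fun a => AddMonoidAlgebra.single a.toAdd (τ a.toAdd)
      map_one' := by
        change AddMonoidAlgebra.single (0 : A) (τ 0) = 1
        rw [h.zero]
        rfl
      map_mul' := fun a b => by
        rw [AddMonoidAlgebra.single_mul_single]
        change AddMonoidAlgebra.single (a.toAdd + b.toAdd) (τ (a.toAdd + b.toAdd)) = _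
        rw [h.add] }

theorem twH_coeff {K A : Type} [AddCommGroup A] [Field K] (τ : A → K) (h : IsPt τ)
    (f : AddMonoidAlgebra K A) : (twH τ h f).coeff = tw τ f.coeff := by
  classical
  unfold twH
  rw [AddMonoidAlgebra.lift_apply]
  ext a
  rw [tw_apply, Finsupp.sum, AddMonoidAlgebra.coeff_sum, Finsupp.finsetSum_apply]
  have h1 : ∀ b ∈ f.coeff.support, ((f.coeff b • AddMonoidAlgebra.single b (τ b) :
      AddMonoidAlgebra K A)).coeff a = if b = a then τ a * f.coeff a else 0 := by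
    intro b _
    rw [AddMonoidAlgebra.coeff_smul, Finsupp.smul_apply, AddMonoidAlgebra.coeff_single,
      Finsupp.single_apply]
    split_ifs with hb
    · rw [hb, smul_eq_mul, mul_comm]
    · rw [smul_zero]
  refine (Finset.sum_congr rfl h1).trans ?_
  rw [Finset.sum_ite_eq']
  split_ifs with ha
  · rfl
  · rw [Finsupp.notMem_support_iff.1 ha, mul_zero]

theorem Spt_prod {K A ι : Type} [AddCommGroup A] [Field K] {N : A → ℝ} (hN : IsNm N) (σ : ℝ)
    (s : Finset ι) (f : ι → AddMonoidAlgebra K A) (hf : ∀ i ∈ s, Spt N σ (f i).coeff) :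
    Spt N ((s.card : ℝ) * σ) (∏ i ∈ s, f i).coeff := by
  classical
  induction s using Finset.induction_on with
  | empty =>
    intro a ha
    have h0 : N 0 = 0 := by
      have := hN.nsm 0 0
      rw [zero_smul, Nat.cast_zero, zero_mul] at this
      exact this
    have ha0 : a = 0 := by
      by_contra hne
      rw [Finsupp.mem_support_iff, Finset.prod_empty] at ha
      apply ha
      rw [AddMonoidAlgebra.one_def, AddMonoidAlgebra.coeff_single, Finsupp.single_apply,
        if_neg (Ne.symm hne)]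
    rw [ha0, h0]
    simp
  | insert i s hi ih =>
    intro a ha
    rw [Finset.prod_insert hi] at ha
    obtain ⟨b, hb, c, hc, rfl⟩ := Finset.mem_add.1
      (AddMonoidAlgebra.support_coeff_mul_subset _ _ ha)
    have h1 := hf i (Finset.mem_insert_self i s) b hb
    have h2 := ih (fun j hj => hf j (Finset.mem_insert_of_mem hj)) c hc
    have h3 := hN.add b c
    rw [Finset.card_insert_of_notMem hi]
    push_cast
    linarith

theorem pt_zsmul {A R : Type} [AddCommGroup A] [Field R] {y : A → R} (h : IsPt y) (a : A)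
    (n : ℕ) : y (n • a) = y a ^ n := by
  induction n with
  | zero => rw [zero_smul, pow_zero, h.zero]
  | succ n ih => rw [succ_nsmul, h.add, ih, pow_succ]

theorem pt_ne {A R : Type} [AddCommGroup A] [Field R] {y : A → R} (h : IsPt y) (a : A) :
    y a ≠ 0 := by
  intro h0
  have h1 := h.add a (-a)
  rw [add_neg_cancel, h.zero, h0, zero_mul] at h1
  exact one_ne_zero h1

theorem pt_neg {A R : Type} [AddCommGroup A] [Field R] {y : A → R} (h : IsPt y) (a : A) :
    y (-a) = (y a)⁻¹ := by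
  have h1 := h.add (-a) a
  rw [neg_add_cancel, h.zero] at h1
  exact eq_inv_of_mul_eq_one_left h1.symm

theorem pt_zs {A R : Type} [AddCommGroup A] [Field R] {y : A → R} (h : IsPt y) (a : A)
    (n : ℤ) : y (n • a) = y a ^ n := by
  cases n with
  | ofNat n =>
    rw [Int.ofNat_eq_natCast, natCast_zsmul, zpow_natCast, pt_zsmul h]
  | negSucc n =>
    rw [negSucc_zsmul, pt_neg h, pt_zsmul h, zpow_negSucc]

theorem pt_sum {A R ι : Type} [AddCommGroup A] [Field R] {y : A → R} (h : IsPt y)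
    (s : Finset ι) (a : ι → A) : y (∑ i ∈ s, a i) = ∏ i ∈ s, y (a i) := by
  classical
  induction s using Finset.induction_on with
  | empty => rw [Finset.sum_empty, Finset.prod_empty, h.zero]
  | insert i s hi ih => rw [Finset.sum_insert hi, Finset.prod_insert hi, h.add, ih]

theorem pt_coord {R : Type} [Field R] {m : ℕ} {y : (Fin m → ℤ) → R} (h : IsPt y)
    (a : Fin m → ℤ) : y a = ∏ l, y (Pi.single l 1) ^ (a l) := by
  have h1 : a = ∑ l, a l • (Pi.single l 1 : Fin m → ℤ) := by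
    ext j
    rw [Finset.sum_apply]
    simp [Pi.single_apply]
  conv_lhs => rw [h1]
  rw [pt_sum h]
  exact Finset.prod_congr rfl fun l _ => pt_zs h _ _

theorem pt_zpow {R : Type} [Field R] {m : ℕ} {u : R} (hu : u ≠ 0) (k : Fin m → ℤ) :
    IsPt (fun a : Fin m → ℤ => u ^ (∑ l, k l * a l)) := by
  constructor
  · simp
  · intro a b
    change u ^ (∑ l, k l * (a + b) l) = u ^ (∑ l, k l * a l) * u ^ (∑ l, k l * b l)
    rw [← zpow_add₀ hu, ← Finset.sum_add_distrib]
    congr 1
    exact Finset.sum_congr rfl fun l _ => by rw [Pi.add_apply, mul_add]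

theorem sum_single_one {m : ℕ} (k : Fin m → ℤ) (l : Fin m) :
    ∑ l', k l' * (Pi.single l (1 : ℤ) : Fin m → ℤ) l' = k l := by
  simp [Pi.single_apply]

theorem root_char {K : Type} [Field K] (p : ℕ) (hp : p.Prime) (hM : MuP K p) {m : ℕ} (i : ℕ)
    (χ : (Fin m → ℤ) → K) (hχ : IsPt χ) (hpp : ∀ a, ∃ j : ℕ, χ a ^ (p ^ j) = 1) :
    ∃ χ' : (Fin m → ℤ) → K, IsPt χ' ∧ (∀ a, ∃ j : ℕ, χ' a ^ (p ^ j) = 1) ∧
      ∀ a, χ' a ^ (p ^ i) = χ a := by
  choose j hj using fun l : Fin m => hpp (Pi.single l 1)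
  obtain ⟨J, hJd⟩ : ∃ J : ℕ, ∀ l, j l ≤ J :=
    ⟨Finset.univ.sup j, fun l => Finset.le_sup (Finset.mem_univ l)⟩
  have hJ : ∀ l, χ (Pi.single l 1) ^ (p ^ J) = 1 := by
    intro l
    obtain ⟨d, hd⟩ := pow_dvd_pow p (hJd l)
    rw [hd, pow_mul, hj, one_pow]
  obtain ⟨ω, hω⟩ := hM (J + i)
  have hpos : 0 < p ^ (J + i) := pow_pos hp.pos _
  have hω0 : ω ≠ 0 := hω.ne_zero hpos.ne'
  have h1 : IsPrimitiveRoot (ω ^ (p ^ i)) (p ^ J) :=
    hω.pow hpos (by rw [pow_add, mul_comm])
  have : NeZero (p ^ J) := ⟨pow_ne_zero _ hp.ne_zero⟩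
  have h2 : ∀ l, ∃ k < p ^ J, (ω ^ (p ^ i)) ^ k = χ (Pi.single l 1) := fun l =>
    h1.eq_pow_of_pow_eq_one (hJ l)
  choose k hk hk' using h2
  have hω1 : ω ^ (p ^ i) ≠ 0 := pow_ne_zero _ hω0
  refine ⟨fun a => ω ^ (∑ l, (k l : ℤ) * a l), pt_zpow hω0 _, ?_, ?_⟩
  · intro a
    refine ⟨J + i, ?_⟩
    rw [← zpow_natCast, ← zpow_mul, mul_comm, zpow_mul, zpow_natCast, hω.pow_eq_one, one_zpow]
  · intro a
    rw [pt_coord hχ, ← zpow_natCast, ← zpow_mul, mul_comm, zpow_mul, zpow_natCast]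
    have h3 := pt_coord (pt_zpow hω1 fun l => (k l : ℤ)) a
    refine h3.trans (Finset.prod_congr rfl fun l _ => ?_)
    rw [sum_single_one, zpow_natCast, hk']

theorem zpow_congr_mod {K : Type} [Field K] {q : ℕ} {ζ : K} (hζ : IsPrimitiveRoot ζ q)
    (h0 : ζ ≠ 0) (S S' : ℤ) (h : (S : ZMod q) = (S' : ZMod q)) : ζ ^ S = ζ ^ S' := by
  have h1 : (q : ℤ) ∣ S' - S := (ZMod.intCast_eq_intCast_iff_dvd_sub _ _ _).1 h
  have h2 : ζ ^ (S' - S) = 1 := (hζ.zpow_eq_one_iff_dvd _).2 h1
  have h3 : S' = (S' - S) + S := by ring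
  rw [h3, zpow_add₀ h0, h2, one_mul]

theorem pf_LIF : T_LIF := by
  classical
  intro K Ω _ _ _ _ p hp hM m y N σ hy hN hσ hS i χ hχ hpp hprop
  obtain ⟨q, hq⟩ : ∃ q : ℕ, q = p ^ i := ⟨_, rfl⟩
  have hqpos : 0 < q := hq ▸ pow_pos hp.pos _
  have : NeZero q := ⟨hqpos.ne'⟩
  by_contra hne
  obtain ⟨a0, ha0⟩ := not_forall.1 hne
  obtain ⟨χ', hχ', hpp', hroot⟩ := root_char p hp hM i χ hχ hpp
  obtain ⟨ζ, hζ⟩ := hM i
  rw [← hq] at hζ hroot
  have hζ0 : ζ ≠ 0 := hζ.ne_zero hqpos.ne'
  obtain ⟨τ, hτd⟩ : ∃ τ : (Fin m → ZMod q) → (Fin m → ℤ) → K,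
      ∀ e a, τ e a = ζ ^ (∑ l, ((e l).val : ℤ) * a l) := ⟨_, fun _ _ => rfl⟩
  have hτ : ∀ e, IsPt (τ e) := by
    intro e
    have h1 := pt_zpow hζ0 fun l => ((e l).val : ℤ)
    have h2 : τ e = fun a => ζ ^ (∑ l, ((e l).val : ℤ) * a l) := funext (hτd e)
    rw [h2]
    exact h1
  have hτq : ∀ e a, τ e a ^ q = 1 := by
    intro e a
    rw [hτd, ← zpow_natCast, ← zpow_mul, mul_comm, zpow_mul, zpow_natCast, hζ.pow_eq_one,
      one_zpow]
  have hτadd : ∀ e e' a, τ (e + e') a = τ e a * τ e' a := by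
    intro e e' a
    rw [hτd, hτd, hτd, ← zpow_add₀ hζ0]
    refine zpow_congr_mod hζ hζ0 _ _ ?_
    push_cast
    rw [← Finset.sum_add_distrib]
    refine Finset.sum_congr rfl fun l _ => ?_
    rw [ZMod.natCast_zmod_val, ZMod.natCast_zmod_val, ZMod.natCast_zmod_val, Pi.add_apply,
      add_mul]
  have hτ0 : ∀ a, τ 0 a = 1 := by
    intro a
    rw [hτd]
    simp
  have hτs : ∀ l a, τ (Pi.single l 1) a = ζ ^ (a l) := by
    intro l a
    rw [hτd]
    refine zpow_congr_mod hζ hζ0 _ _ ?_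
    push_cast
    rw [Finset.sum_eq_single l]
    · rw [ZMod.natCast_zmod_val, Pi.single_eq_same, one_mul]
    · intro l' _ hl'
      rw [ZMod.natCast_zmod_val, Pi.single_eq_of_ne hl', zero_mul]
    · intro h
      exact absurd (Finset.mem_univ l) h
  obtain ⟨X, hXd⟩ : ∃ X : Submodule K ((Fin m → ℤ) →₀ K),
      X = Finsupp.supported K K {a | N a ≤ σ} ⊓
        LinearMap.ker (Finsupp.linearCombination K y) := ⟨_, rfl⟩
  have hX : ∀ f, f ∈ X ↔ Spt N σ f ∧ ev K y f = 0 := by
    intro f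
    rw [hXd, Submodule.mem_inf, Finsupp.mem_supported, LinearMap.mem_ker, ev_lin]
    rfl
  have hmulpt : ∀ e, IsPt (fun a => τ e a * χ' a) := fun e =>
    ⟨by rw [(hτ e).zero, hχ'.zero, one_mul], fun a b => by
      rw [(hτ e).add, hχ'.add]; ring⟩
  obtain ⟨W, hW⟩ : ∃ W : (Fin m → ZMod q) → Submodule K X, ∀ e, W e =
      LinearMap.ker ((Finsupp.linearCombination K
      (fun a => algebraMap K Ω (τ e a * χ' a) * y a)).domRestrict X) := ⟨_, fun _ => rfl⟩
  have hE : ∀ e, W e ≠ ⊤ := by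
    intro e htop
    rw [hW] at htop
    have h1 := hS (fun a => τ e a * χ' a) (hmulpt e) (fun a => by
      obtain ⟨j, hj⟩ := hpp' a
      refine ⟨i + j, ?_⟩
      have h2 := hτq e a
      rw [hq] at h2
      rw [mul_pow, pow_add, pow_mul, h2, one_pow, one_mul, mul_comm, pow_mul, hj, one_pow])
      (fun f hf h0 => by
        have h2 : (⟨f, (hX f).2 ⟨hf, h0⟩⟩ : X) ∈ LinearMap.ker ((Finsupp.linearCombination K
            (fun a => algebraMap K Ω (τ e a * χ' a) * y a)).domRestrict X) := by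
          rw [htop]
          exact Submodule.mem_top
        rw [LinearMap.mem_ker, LinearMap.domRestrict_apply] at h2
        rw [ev_lin]
        exact h2) a0
    apply ha0
    calc χ a0 = τ e a0 ^ q * χ' a0 ^ q := by rw [hτq, one_mul, hroot]
      _ = 1 := by rw [← mul_pow, h1, one_pow]
  have : Infinite K := CharZero.infinite K
  obtain ⟨⟨f, hfX⟩, hf⟩ := Submodule.exists_forall_notMem_of_forall_ne_top
    (K := K) (M := X) (ι := Fin m → ZMod q) W hE
  have hfs := (hX f).1 hfX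
  obtain ⟨F, hF⟩ : ∃ F : AddMonoidAlgebra K (Fin m → ℤ), F.coeff = f :=
    ⟨AddMonoidAlgebra.ofCoeff f, rfl⟩
  obtain ⟨g, hg⟩ : ∃ g : AddMonoidAlgebra K (Fin m → ℤ), g = ∏ e, twH (τ e) (hτ e) F :=
    ⟨_, rfl⟩
  have hgS : Spt N ((q : ℝ) ^ m * σ) g.coeff := by
    have h1 := Spt_prod hN σ (Finset.univ : Finset (Fin m → ZMod q))
      (fun e => twH (τ e) (hτ e) F) (fun e _ a ha => by
        rw [twH_coeff] at ha
        refine hfs.1 a ?_
        rw [hF, Finsupp.mem_support_iff, tw_apply] at ha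
        rw [Finsupp.mem_support_iff]
        exact right_ne_zero_of_mul ha)
    rw [← hg, Finset.card_univ, Fintype.card_pi_const, ZMod.card] at h1
    push_cast at h1
    exact h1
  have hginv : ∀ e0, twH (τ e0) (hτ e0) g = g := by
    intro e0
    have h1 : ∀ e, twH (τ e0) (hτ e0) (twH (τ e) (hτ e) F) =
        twH (τ (e0 + e)) (hτ (e0 + e)) F := by
      intro e
      apply AddMonoidAlgebra.coeff_injective
      rw [twH_coeff, twH_coeff, twH_coeff, tw_tw]
      congr 1
      funext a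
      rw [hτadd]
    conv_lhs => rw [hg, map_prod]
    rw [Finset.prod_congr rfl fun e _ => h1 e, hg]
    exact Fintype.prod_equiv (Equiv.addLeft e0) _ _ fun e => rfl
  have hgd : ∀ a ∈ g.coeff.support, ∀ l, (q : ℤ) ∣ a l := by
    intro a ha l
    have h1 : (twH (τ (Pi.single l 1)) (hτ (Pi.single l 1)) g).coeff a = g.coeff a := by
      rw [hginv]
    rw [twH_coeff, tw_apply, hτs] at h1
    have h2 : ζ ^ (a l) = 1 := mul_right_cancel₀ (Finsupp.mem_support_iff.1 ha)
      (by rw [h1, one_mul])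
    exact (hζ.zpow_eq_one_iff_dvd _).1 h2
  have hQ : Function.Injective (fun b : Fin m → ℤ => q • b) := by
    intro b b' hbb
    funext l
    have h1 := congrFun hbb l
    simp only [Pi.smul_apply, nsmul_eq_mul] at h1
    exact mul_left_cancel₀ (Int.natCast_ne_zero.2 hqpos.ne') h1
  have hrange : (g.coeff.support : Set (Fin m → ℤ)) ⊆ Set.range (fun b : Fin m → ℤ => q • b) := by
    intro a ha
    choose b hb using hgd a ha
    refine ⟨b, ?_⟩
    funext l
    simp only [Pi.smul_apply, nsmul_eq_mul]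
    exact (hb l).symm
  obtain ⟨h, hh⟩ : ∃ h : (Fin m → ℤ) →₀ K,
      h = Finsupp.comapDomain (fun b : Fin m → ℤ => q • b) g.coeff hQ.injOn := ⟨_, rfl⟩
  have hmap : Finsupp.mapDomain (fun b : Fin m → ℤ => q • b) h = g.coeff := by
    rw [hh]
    exact Finsupp.mapDomain_comapDomain _ hQ _ hrange
  have hev : ∀ Y : (Fin m → ℤ) → Ω, IsPt Y → ev K Y g.coeff = ev K (fun b => Y b ^ q) h := by
    intro Y hY
    rw [← hmap]
    unfold ev
    rw [Finsupp.sum_mapDomain_index (fun a => by rw [map_zero, zero_mul])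
      (fun a b c => by rw [map_add, add_mul])]
    refine Finsupp.sum_congr fun b _ => ?_
    rw [pt_zsmul hY]
  have hevtw : ∀ (Y : (Fin m → ℤ) → Ω) (hY : IsPt Y), ev K Y g.coeff =
      ∏ e, ev K (fun a => algebraMap K Ω (τ e a) * Y a) f := by
    intro Y hY
    rw [← evH_apply Y hY, hg, map_prod]
    refine Finset.prod_congr rfl fun e _ => ?_
    rw [evH_apply, twH_coeff, ev_tw, hF]
  have h1 : ev K y g.coeff = 0 := by
    rw [hevtw y hy]
    refine Finset.prod_eq_zero (Finset.mem_univ 0) ?_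
    rw [← hfs.2]
    congr 1
    funext a
    rw [hτ0, map_one, one_mul]
  have hYpt : IsPt (fun a => algebraMap K Ω (χ' a) * y a) :=
    ⟨by rw [hχ'.zero, hy.zero, map_one, one_mul], fun a b => by
      rw [hχ'.add, hy.add, map_mul]; ring⟩
  have h2 : ev K (fun a => algebraMap K Ω (χ' a) * y a) g.coeff ≠ 0 := by
    rw [hevtw _ hYpt]
    refine Finset.prod_ne_zero_iff.2 fun e _ h0 => hf e ?_
    rw [hW, LinearMap.mem_ker, LinearMap.domRestrict_apply, ← ev_lin, ← h0]
    congr 1
    funext a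
    rw [map_mul, mul_assoc]
  apply h2
  rw [hev _ hYpt]
  have h3 := hprop h (fun b hb => by
    have hb' : q • b ∈ g.coeff.support := by
      rw [hh, Finsupp.comapDomain_support, Finset.mem_preimage] at hb
      exact hb
    have h4 := hgS _ hb'
    rw [hN.nsm] at h4
    have hq1 : (1 : ℝ) ≤ q := by exact_mod_cast hqpos
    have hR : 0 ≤ (q : ℝ) ^ m * σ := by positivity
    have hcast : ((p : ℝ) ^ i) = (q : ℝ) := by rw [hq]; push_cast; rfl
    rw [hcast]
    by_contra hlt
    rw [not_le] at hlt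
    nlinarith) (by
      rw [← hq, ← hev y hy, h1])
  rw [← h3]
  congr 1
  funext b
  rw [mul_pow, ← map_pow, hroot, hq]

end Pool.Agent.H84.SX
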