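import Pool.Agent.H29.SX.Targets

set_option autoImplicit false

namespace Pool.Agent.H84.SX

open NumberField Height Finset Polynomial Pool.Agent.H24.RD Pool.Agent.H23.RDD Pool.Agent.H29.RQ
  Pool.Agent.H29.SX

theorem NIN_ev {K A R : Type} [Field K] [CommRing R] [Algebra K R] (y : A → R)
    (f : A →₀ K) : ev K y f = Finsupp.linearCombination K y f := by
  unfold ev
  rw [Finsupp.linearCombination_apply]
  exact Finsupp.sum_congr fun a _ => (Algebra.smul_def _ _).symm

/-- A linear map determined by its values on a family of vectors. -/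
theorem exists_lin {K A Ω : Type} [Field K] [Field Ω] [Algebra K Ω] (y z : A → Ω) (S : Set A)
    (h : ∀ f : A →₀ K, (∀ a ∈ f.support, a ∈ S) → ev K y f = 0 → ev K z f = 0) :
    ∃ Ψ : Ω →ₗ[K] Ω, ∀ a ∈ S, Ψ (y a) = z a := by
  classical
  obtain ⟨L1, hL1⟩ : ∃ L : Finsupp.supported K K S →ₗ[K] Ω,
      L = (Finsupp.linearCombination K y).domRestrict _ := ⟨_, rfl⟩
  obtain ⟨L2, hL2⟩ : ∃ L : Finsupp.supported K K S →ₗ[K] Ω,
      L = (Finsupp.linearCombination K z).domRestrict _ := ⟨_, rfl⟩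
  obtain ⟨s, hs⟩ := LinearMap.exists_rightInverse_of_surjective L1.rangeRestrict
    (LinearMap.range_rangeRestrict L1)
  obtain ⟨Ψ, hΨ⟩ := LinearMap.exists_extend (L2 ∘ₗ s)
  refine ⟨Ψ, fun a ha => ?_⟩
  have hmem : Finsupp.single a (1 : K) ∈ Finsupp.supported K K S := by
    rw [Finsupp.mem_supported]
    intro b hb
    rw [Finset.mem_coe, Finsupp.mem_support_iff, Finsupp.single_apply] at hb
    by_contra hne
    apply hb
    rw [if_neg]
    rintro rfl
    exact hne ha
  obtain ⟨u, hu⟩ : ∃ u : Finsupp.supported K K S, u = ⟨Finsupp.single a (1 : K), hmem⟩ :=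
    ⟨_, rfl⟩
  have h1 : L1 u = y a := by
    rw [hL1, hu, LinearMap.domRestrict_apply, Finsupp.linearCombination_single, one_smul]
  have h2 : L2 u = z a := by
    rw [hL2, hu, LinearMap.domRestrict_apply, Finsupp.linearCombination_single, one_smul]
  have h3 : Ψ (L1 u) = L2 (s (L1.rangeRestrict u)) := by
    have := LinearMap.congr_fun hΨ (L1.rangeRestrict u)
    exact this
  have h4 : L1 (s (L1.rangeRestrict u)) = L1 u := by
    have h5 := LinearMap.congr_fun hs (L1.rangeRestrict u)
    exact congrArg Subtype.val h5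
  have key : ∀ v w : Finsupp.supported K K S, L1 v = L1 w → L2 v = L2 w := by
    intro v w hvw
    have e1 : ∀ v : Finsupp.supported K K S, Finsupp.linearCombination K y v.1 = L1 v := by
      intro v
      rw [hL1]
      rfl
    have e2 : ∀ v : Finsupp.supported K K S, Finsupp.linearCombination K z v.1 = L2 v := by
      intro v
      rw [hL2]
      rfl
    have h7 : ev K y (v.1 - w.1) = 0 := by
      rw [NIN_ev, map_sub, e1, e1, hvw, sub_self]
    have h8 : v.1 - w.1 ∈ Finsupp.supported K K S := Submodule.sub_mem _ v.2 w.2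
    have h9 := h (v.1 - w.1) (fun b hb => (Finsupp.mem_supported _ _).1 h8 hb) h7
    rw [NIN_ev, map_sub, e2, e2, sub_eq_zero] at h9
    exact h9
  rw [← h1, h3, key _ _ h4, h2]

theorem pf_NIN (h1 : T_GRO) (h2 : T_TWI) : T_NIN := by
  classical
  intro K Ω _ _ _ _ p hp hM θ κ hθ m y N σ ρ i hy hN hσ hS hq8 hρ hrel a ha
  obtain ⟨q, hq⟩ : ∃ q : ℝ, q = (p : ℝ) ^ i := ⟨_, rfl⟩
  have hq8' : (8 : ℝ) ≤ q := by
    rw [hq]
    exact_mod_cast hq8
  rw [← hq] at hρ
  have hqm : 0 ≤ q ^ m * σ := by positivity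
  have hρ0 : 0 ≤ ρ := by linarith
  obtain ⟨z, hz⟩ : ∃ z : (Fin m → ℤ) → Ω, ∀ a, z a = θ (y a ^ (p ^ i)) := ⟨_, fun _ => rfl⟩
  have hzf : z = fun a => θ (y a ^ (p ^ i)) := funext hz
  rw [← hzf] at hrel
  rw [← hz]
  obtain ⟨Ψ, hΨ⟩ := exists_lin (K := K) y z {a | N a ≤ ρ} (fun f hf h0 => hrel f hf h0)
  have hfd : ∀ r, FiniteDimensional K (WW K y N r) := fun r =>
    FiniteDimensional.span_of_finite K ((hN.fin r).image y)
  have hmap : ∀ r, r ≤ ρ → WW K z N r = (WW K y N r).map Ψ := by
    intro r hr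
    unfold WW
    rw [Submodule.map_span, Set.image_image]
    congr 1
    refine Set.image_congr fun a ha => ?_
    exact (hΨ a (le_trans ha hr)).symm
  have hmono : ∀ r r', r ≤ r' → WW K y N r ≤ WW K y N r' := by
    intro r r' hr
    exact Submodule.span_mono (Set.image_mono fun a ha => le_trans ha hr)
  have hle : Module.finrank K (WW K y N ρ) ≤ Module.finrank K (WW K y N (ρ / 2)) := by
    have e1 : Module.finrank K (WW K z N (ρ / 2)) ≤ Module.finrank K (WW K y N (ρ / 2)) := by
      rw [hmap _ (by linarith)]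
      exact Submodule.finrank_map_le _ _
    have e2 : Module.finrank K (WW K z N (ρ / 2)) =
        Module.finrank K (WW K (fun a => y a ^ (p ^ i)) N (ρ / 2)) := by
      rw [hzf]
      exact (h2 K Ω θ κ hθ p m (fun a => y a ^ (p ^ i)) N).2 (ρ / 2)
    have e3 := h1 K Ω p hp hM m y N σ hy hN hσ hS i (ρ / 4)
    rw [← hq] at e3
    have e4 : 2 * (ρ / 4) = ρ / 2 := by ring
    rw [e4] at e3
    have e5 : Module.finrank K (WW K y N ρ) ≤
        Module.finrank K (WW K y N (q * (ρ / 4) - q ^ m * σ)) := by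
      refine Submodule.finrank_mono (hmono _ _ ?_)
      nlinarith
    omega
  have hEq : WW K y N (ρ / 2) = WW K y N ρ :=
    Submodule.eq_of_le_of_finrank_le (hmono _ _ (by linarith)) hle
  have hya : ∀ a, N a ≤ ρ → y a ∈ WW K y N ρ := fun a ha => Submodule.subset_span ⟨a, ha, rfl⟩
  have hzadd : ∀ a b, z (a + b) = z a * z b := by
    intro a b
    rw [hz, hz, hz, hy.add, mul_pow, map_mul]
  have hN0 : N 0 = 0 := by
    have := hN.nsm 0 0
    rw [zero_smul, Nat.cast_zero, zero_mul] at this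
    exact this
  have hmul : ∀ u ∈ WW K y N (ρ / 2), ∀ v ∈ WW K y N (ρ / 2),
      u * v ∈ WW K y N ρ ∧ Ψ (u * v) = Ψ u * Ψ v := by
    intro u hu v hv
    unfold WW at hu hv
    induction hu using Submodule.span_induction with
    | mem u h =>
      obtain ⟨b, hb, rfl⟩ := h
      rw [Set.mem_ofPred_eq] at hb
      induction hv using Submodule.span_induction with
      | mem v h =>
        obtain ⟨c, hc, rfl⟩ := h
        rw [Set.mem_ofPred_eq] at hc
        have h3 : N (b + c) ≤ ρ := by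
          have := hN.add b c
          linarith
        rw [← hy.add]
        exact ⟨hya _ h3, by
          rw [hΨ _ h3, hΨ b (by change N b ≤ ρ; linarith), hΨ c (by change N c ≤ ρ; linarith),
            hzadd]⟩
      | zero =>
        rw [mul_zero, map_zero, mul_zero]
        exact ⟨Submodule.zero_mem _, rfl⟩
      | add v v' _ _ h h' =>
        rw [mul_add, map_add, map_add, mul_add, h.2, h'.2]
        exact ⟨Submodule.add_mem _ h.1 h'.1, rfl⟩
      | smul c v _ h =>
        rw [mul_smul_comm, map_smul, map_smul, mul_smul_comm, h.2]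
        exact ⟨Submodule.smul_mem _ _ h.1, rfl⟩
    | zero =>
      rw [zero_mul, map_zero, zero_mul]
      exact ⟨Submodule.zero_mem _, rfl⟩
    | add v v' _ _ h h' =>
      rw [add_mul, map_add, map_add, add_mul, h.2, h'.2]
      exact ⟨Submodule.add_mem _ h.1 h'.1, rfl⟩
    | smul c v _ h =>
      rw [smul_mul_assoc, map_smul, map_smul, smul_mul_assoc, h.2]
      exact ⟨Submodule.smul_mem _ _ h.1, rfl⟩
  have hpow : ∀ n : ℕ, y a ^ n ∈ WW K y N ρ ∧ Ψ (y a ^ n) = z a ^ n := by
    intro n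
    induction n with
    | zero =>
      rw [pow_zero, pow_zero, ← hy.zero]
      refine ⟨hya 0 (by rw [hN0]; exact hρ0), ?_⟩
      rw [hΨ 0 (by change N 0 ≤ ρ; rw [hN0]; exact hρ0), hz, hy.zero, one_pow, map_one]
    | succ n ih =>
      have h3 := hmul (y a ^ n) (by rw [hEq]; exact ih.1) (y a) (by rw [hEq]; exact hya a ha)
      rw [pow_succ, pow_succ]
      exact ⟨h3.1, by rw [h3.2, ih.2, hΨ a ha]⟩
  have hP : ∀ P : K[X], Ψ (aeval (y a) P) = aeval (z a) P := by
    intro P
    rw [aeval_eq_sum_range, aeval_eq_sum_range, map_sum]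
    refine Finset.sum_congr rfl fun n _ => ?_
    rw [map_smul, (hpow n).2]
  rw [← hP, minpoly.aeval, map_zero]

end Pool.Agent.H84.SX
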