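import Pool.Agent.H29.SX.Targets

set_option autoImplicit false

namespace Pool.Agent.H84.SX

open NumberField Height Finset Polynomial Pool.Agent.H24.RD Pool.Agent.H23.RDD Pool.Agent.H29.RQ
  Pool.Agent.H29.SX

theorem TWI_ev {K Ω : Type} [Field K] [Field Ω] [Algebra K Ω] (θ : Ω ≃+* Ω) (κ : K ≃+* K)
    (hθ : ∀ x, θ (algebraMap K Ω x) = algebraMap K Ω (κ x)) {A : Type} [AddCommGroup A]
    (y : A → Ω) (f : A →₀ K) :
    ev K (fun a => θ (y a)) (f.mapRange κ (map_zero κ)) = θ (ev K y f) := by
  unfold ev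
  rw [Finsupp.sum_mapRange_index]
  · rw [Finsupp.sum, Finsupp.sum, map_sum]
    refine Finset.sum_congr rfl fun a _ => ?_
    rw [map_mul, hθ]
  · intro a
    rw [map_zero, zero_mul]

theorem TWI_mem {K Ω : Type} [Field K] [Field Ω] [Algebra K Ω] (θ : Ω ≃+* Ω) (κ : K ≃+* K)
    (hθ : ∀ x, θ (algebraMap K Ω x) = algebraMap K Ω (κ x)) {A : Type} (y : A → Ω) (N : A → ℝ)
    (ρ : ℝ) (x : Ω) (hx : x ∈ WW K y N ρ) : θ x ∈ WW K (fun a => θ (y a)) N ρ := by
  unfold WW at hx ⊢
  induction hx using Submodule.span_induction with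
  | mem x h =>
    obtain ⟨a, ha, rfl⟩ := h
    exact Submodule.subset_span ⟨a, ha, rfl⟩
  | zero => rw [map_zero]; exact Submodule.zero_mem _
  | add x x' _ _ h h' => rw [map_add]; exact Submodule.add_mem _ h h'
  | smul c x _ h =>
    rw [Algebra.smul_def, map_mul, hθ, ← Algebra.smul_def]
    exact Submodule.smul_mem _ _ h

theorem pf_TWI : T_TWI := by
  intro K Ω _ _ _ θ κ hθ p m y N
  have hθ' : ∀ x, θ.symm (algebraMap K Ω x) = algebraMap K Ω (κ.symm x) := by
    intro x
    rw [RingEquiv.symm_apply_eq, hθ, RingEquiv.apply_symm_apply]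
  constructor
  · intro σ hS χ hχ hp h
    have key : ∀ a, κ.symm (χ a) = 1 := by
      refine hS (fun a => κ.symm (χ a)) ⟨by rw [hχ.zero, map_one], fun a b => by
        rw [hχ.add, map_mul]⟩ ?_ ?_
      · intro a
        obtain ⟨j, hj⟩ := hp a
        exact ⟨j, by rw [← map_pow, hj, map_one]⟩
      · intro f hf h0
        have h1 := h (f.mapRange κ (map_zero κ)) (fun a ha => hf a
          (Finsupp.support_mapRange ha)) (by rw [TWI_ev θ κ hθ, h0, map_zero])
        have h2 : (fun a => algebraMap K Ω (χ a) * θ (y a)) =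
            fun a => θ (algebraMap K Ω (κ.symm (χ a)) * y a) := by
          funext a
          rw [map_mul, hθ, RingEquiv.apply_symm_apply]
        rw [h2, TWI_ev θ κ hθ] at h1
        exact (map_eq_zero_iff θ θ.injective).1 h1
    intro a
    have h1 := key a
    rw [RingEquiv.symm_apply_eq, map_one] at h1
    exact h1
  · intro ρ
    have hb : ∀ x, x ∈ WW K (fun a => θ (y a)) N ρ → θ.symm x ∈ WW K y N ρ := by
      intro x hx
      have h1 := TWI_mem θ.symm κ.symm hθ' (fun a => θ (y a)) N ρ x hx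
      have h2 : (fun a => θ.symm (θ (y a))) = y := by
        funext a
        rw [RingEquiv.symm_apply_apply]
      rw [h2] at h1
      exact h1
    let j : WW K y N ρ ≃+ WW K (fun a => θ (y a)) N ρ :=
      { toFun := fun x => ⟨θ x.1, TWI_mem θ κ hθ y N ρ x.1 x.2⟩
        invFun := fun x => ⟨θ.symm x.1, hb x.1 x.2⟩
        left_inv := fun x => Subtype.ext (θ.symm_apply_apply x.1)
        right_inv := fun x => Subtype.ext (θ.apply_symm_apply x.1)
        map_add' := fun x x' => Subtype.ext (map_add θ x.1 x'.1) }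
    have h1 := rank_eq_of_equiv_equiv (κ : K → K) j κ.bijective (by
      intro r x
      refine Subtype.ext ?_
      change θ (r • x.1) = κ r • θ x.1
      rw [Algebra.smul_def, map_mul, hθ, ← Algebra.smul_def])
    unfold Module.finrank
    rw [h1]

end Pool.Agent.H84.SX
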